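import Pool.Agent.Lib.helper26.RSet

namespace Pool.Agent.Results.MP_aabed8_pr.Fails
open Pool.Agent.Lib.helper26.RSet MeasureTheory Metric Finset
open scoped Pointwise

/-- Beck's B-convexity -/
def BConvex (E : Type) [NormedAddCommGroup E] [NormedSpace ℝ E] : Prop :=
  ∃ (k : ℕ) (ε : ℝ), 2 ≤ k ∧ 0 < ε ∧ ∀ x : Fin k → E, (∀ i, ‖x i‖ ≤ 1) →
    ∃ s : Fin k → ℝ, (∀ i, s i = 1 ∨ s i = -1) ∧ ‖∑ i, s i • x i‖ ≤ k * (1 - ε)

theorem result : ∃ (E : Type) (_ : NormedAddCommGroup E) (_ : InnerProductSpace ℝ E)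
    (_ : CompleteSpace E) (Ω : Type) (_ : MeasurableSpace Ω) (P : Measure Ω)
    (Ψ : ℕ → Ω → Set E) (U : Set E), BConvex E ∧ IsProbabilityMeasure P ∧ RandomSets P Ψ U ∧
      ∀ ω, ∀ N : ℕ, 8 ≤ N →
        1 / 4 ≤ hausdorffEDist ((N : ℝ)⁻¹ • ∑ i ∈ range N, Ψ i ω) U := by
  refine ⟨X, _, _, inferInstance, Ω, _, P, Ψ, U, ⟨2, 1 / 4, le_rfl, by norm_num, fun x h => ?_⟩, inferInstance, random, far⟩
  by_contra! hc
  have c := hc ![1, 1] (by simp)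
  have d := hc ![1, -1] (by simp)
  simp only [Fin.sum_univ_two, Matrix.cons_val_zero, Matrix.cons_val_one, one_smul,
    neg_smul, ← sub_eq_add_neg, Nat.cast_ofNat] at c d
  nlinarith [parallelogram_law_with_norm ℝ (x 0) (x 1), norm_nonneg (x 0), norm_nonneg (x 1),
    h 0, h 1]

end Pool.Agent.Results.MP_aabed8_pr.Fails
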